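import Mathlib
import Pool.Agent.RSC.Main
import Pool.Agent.RSC.Exist

/-!
Cunningham chains of the first kind in the random sieve model of the primes (Banks, Ford, Tao): almost
surely, for every `k ≥ 1`, the number of `n ≤ x` which start a chain of exact length `k` is asymptotic
to `c x / (log x)^k` with a positive constant `c`. In particular the analogue of Q1 holds almost surely.
-/

namespace Pool.Agent.Results.MP_77cbc6_nt.BanksFordTao

open MeasureTheory ProbabilityTheory Filter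

/-- `∏_{q ≤ y} (1 - 1/q)`, the product over the primes `q ≤ y`. -/
noncomputable def theta (y : ℕ) : ℝ :=
  ∏ q ∈ (Finset.range (y + 1)).filter Nat.Prime, (1 - 1 / (q : ℝ))

/-- The set which is left by the sieve with the residue classes `a p`: the odd `n` such that
`n % p ≠ a p` for every odd prime `p` with `theta p ≥ 1 / log n` (written `1 ≤ log n * theta p`). -/
def Sieved (a : ℕ → ℕ) : Set ℕ :=
  {n | n % 2 = 1 ∧ ∀ p : ℕ, p.Prime → p ≠ 2 → 1 ≤ Real.log n * theta p → n % p ≠ a p}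

/-- For every prime `p` the random variable `a p` is uniformly distributed on `{0, ..., p - 1}`, and
these random variables are independent. -/
structure UniformClasses {Ω : Type*} [MeasurableSpace Ω] (μ : Measure Ω) (a : ℕ → Ω → ℕ) :
    Prop where
  meas : ∀ p, p.Prime → Measurable (a p)
  indep : iIndepFun (fun p : Nat.Primes => a p) μ
  unif : ∀ p, p.Prime → ∀ j < p, μ.real {ω | a p ω = j} = 1 / (p : ℝ)

/-- `n` starts a first-kind Cunningham chain of exact length `k` in the set `R`: the numbers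
`2^i (n+1) - 1` lie in `R` for `i < k`, and `2^k (n+1) - 1` does not. -/
def StartsExact (R : Set ℕ) (n k : ℕ) : Prop :=
  (∀ i < k, 2 ^ i * (n + 1) - 1 ∈ R) ∧ 2 ^ k * (n + 1) - 1 ∉ R

/-- Such random variables exist (this is not part of `result`, it only shows that `result` is not
vacuous). -/
theorem exists_classes : ∃ (Ω : Type) (_ : MeasurableSpace Ω) (μ : Measure Ω) (a : ℕ → Ω → ℕ),
    IsProbabilityMeasure μ ∧ UniformClasses μ a := by
  obtain ⟨Ω, m, μ, a, h1, h2⟩ := Pool.Agent.RSC.exists_unif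
  exact ⟨Ω, m, μ, a, h1, h2.meas, h2.indep, h2.unif⟩

theorem result {Ω : Type*} [MeasurableSpace Ω] (μ : Measure Ω) [IsProbabilityMeasure μ]
    (a : ℕ → Ω → ℕ) (ha : UniformClasses μ a) :
    ∀ᵐ ω ∂μ, ∀ k : ℕ, 1 ≤ k → ∃ c : ℝ, 0 < c ∧
      Tendsto (fun x : ℕ =>
        (Set.ncard {n : ℕ | 1 ≤ n ∧ n ≤ x ∧ StartsExact (Sieved fun p => a p ω) n k} : ℝ) /
          ((x : ℝ) / Real.log x ^ k)) atTop (nhds c) := by
  classical
  have h := Pool.Agent.RSC.main (μ := μ) (a := a) ⟨ha.meas, ha.indep, ha.unif⟩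
  filter_upwards [h] with ω hω k hk
  obtain ⟨c, hc, h1⟩ := hω k hk
  refine ⟨c, hc, h1.congr fun x => ?_⟩
  have h2 : {n : ℕ | 1 ≤ n ∧ n ≤ x ∧ StartsExact (Sieved fun p => a p ω) n k} =
      ↑((Finset.Icc 1 x).filter (fun n => (∀ i < k, Pool.Agent.RSC.ch i n ∈
        Pool.Agent.RSC.RS (fun p => a p ω)) ∧ Pool.Agent.RSC.ch k n ∉
        Pool.Agent.RSC.RS (fun p => a p ω))) := by
    ext n
    simp only [Finset.coe_filter, Finset.mem_Icc, Set.mem_ofPred_eq]
    constructor
    · rintro ⟨h3, h4, h5⟩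
      exact ⟨⟨h3, h4⟩, h5⟩
    · rintro ⟨⟨h3, h4⟩, h5⟩
      exact ⟨h3, h4, h5⟩
  rw [h2, Set.ncard_coe_finset, div_div_eq_mul_div]

end Pool.Agent.Results.MP_77cbc6_nt.BanksFordTao
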