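import Pool.Agent.AMC.InfA

/-!
# Cunningham chains for almost every sequence of multipliers

For real sequences `α`, `β` the chain of a natural number `p` is `c 0 = p`,
`c (n+1) = ⌊α n * c n + β n⌋` (Q1 is the case `α n = 2`, `β n = 1`).
`MCC.StartsExact α β p k` says that `c 0, ..., c (k-1)` are prime and `c k` is composite.

Let the `α n` be independent random variables with any absolutely continuous laws on `(0, ∞)`, for
instance uniform in `(2, 2 + ε n)`. Then almost surely, for all sequences `β` of rational numbers and
all `k ≥ 1`, the number of primes `p ≤ X` which start a chain of exact length `k` is asymptotic to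
`X / (log X)^k`.

The proof uses the zero free region of Vinogradov and Korobov (with a slightly worse exponent), i.e. the
estimate of Dirichlet polynomials over primes at heights up to any power of their length
(`VKZ.prime_gauss`, proved in `Pool/Agent/VKZ`), Plancherel's theorem and the mean value theorem.
-/

namespace Pool.Agent.Results.MP_77cbc6_nt.GenericMultipliers

open MeasureTheory Filter Topology

open Classical in
theorem result (μ : ℕ → Measure ℝ) [∀ n, IsProbabilityMeasure (μ n)]
    (hac : ∀ n, μ n ≪ volume) (hpos : ∀ n, μ n (Set.Iic 0) = 0) :
    ∀ᵐ α ∂(Measure.infinitePi μ), ∀ β : ℕ → ℚ, ∀ k : ℕ, 1 ≤ k →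
      Tendsto (fun X : ℕ =>
        (((Finset.Icc 1 X).filter fun p =>
          MCC.StartsExact α (fun n => (β n : ℝ)) p k).card : ℝ) * Real.log X ^ k / X)
        atTop (𝓝 1) :=
  AMC.inf_asy μ hac hpos

end Pool.Agent.Results.MP_77cbc6_nt.GenericMultipliers
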