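import Mathlib
import Pool.Agent.CCL.Main

namespace Pool.Agent.Results.MP_77cbc6_nt.LongChainsRare

/-- `p` starts a first-kind Cunningham chain of exact length `k`: `2^i (p+1) - 1` is prime for `i < k`
and `2^k (p+1) - 1` is not prime. -/
def StartsExact (p k : ℕ) : Prop :=
  (∀ i < k, (2 ^ i * (p + 1) - 1).Prime) ∧ ¬ (2 ^ k * (p + 1) - 1).Prime

theorem result (A ε : ℝ) (hA : 1 < A) (hε : 0 < ε) : ∃ X0 : ℕ, ∀ x : ℕ, X0 ≤ x →
    (Set.ncard {p : ℕ | p ≤ x ∧ p.Prime ∧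
      ¬ ∃ k : ℕ, 1 ≤ k ∧ (k : ℝ) ≤ (Real.log p) ^ A ∧ StartsExact p k} : ℝ) ≤
      (x : ℝ) ^ (3 / 4 + 1 / (4 * A) + ε) := by
  classical
  obtain ⟨X0, hX0⟩ := Pool.Agent.CCL.long_chains A ε hA hε
  refine ⟨X0, fun x hx => ?_⟩
  have hfin : {p : ℕ | p ≤ x ∧ p.Prime ∧
      ¬ ∃ k : ℕ, 1 ≤ k ∧ (k : ℝ) ≤ (Real.log p) ^ A ∧ StartsExact p k}.Finite :=
    (Set.finite_Iic x).subset fun p hp => hp.1
  rw [Set.ncard_eq_toFinset_card _ hfin]
  refine hX0 x hx 1 (Or.inl rfl) _ fun p hp => ?_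
  rw [Set.Finite.mem_toFinset] at hp
  obtain ⟨hpx, hpp, hne⟩ := hp
  refine ⟨hpx, fun n hn => ?_⟩
  have hpos : ∀ m : ℕ, 1 ≤ 2 ^ m * (p + 1) := fun m => Nat.mul_pos (by positivity) (by omega)
  have hprime : (2 ^ n * (p + 1) - 1).Prime := by
    by_contra hcon
    have hex : ∃ m : ℕ, ¬ (2 ^ m * (p + 1) - 1).Prime := ⟨n, hcon⟩
    obtain ⟨k, hk⟩ : ∃ k, k = Nat.find hex := ⟨_, rfl⟩
    have hk1 : ¬ (2 ^ k * (p + 1) - 1).Prime := by rw [hk]; exact Nat.find_spec hex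
    have hk2 : ∀ i < k, (2 ^ i * (p + 1) - 1).Prime := by
      intro i hi
      rw [hk] at hi
      exact not_not.1 (Nat.find_min hex hi)
    have hkn : k ≤ n := by rw [hk]; exact Nat.find_min' hex hcon
    apply hne
    refine ⟨k, ?_, ?_, hk2, hk1⟩
    · by_contra h0
      have h1 : k = 0 := by omega
      rw [h1] at hk1
      apply hk1
      have h2 : 2 ^ 0 * (p + 1) - 1 = p := by omega
      rw [h2]
      exact hpp
    · have h1 : (k : ℝ) ≤ n := by exact_mod_cast hkn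
      exact h1.trans hn.le
  have h2 : ((2 ^ n * (p + 1) - 1 : ℕ) : ℤ) = (2 : ℤ) ^ n * ((p : ℤ) + 1) - 1 := by
    rw [Nat.cast_sub (hpos n)]
    push_cast
    ring
  rw [← h2]
  exact Nat.prime_iff_prime_int.1 hprime

end Pool.Agent.Results.MP_77cbc6_nt.LongChainsRare
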