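import Mathlib
import Pool.Agent.RSL.Main
import Pool.Agent.RSC.Exist

/-!
The lengths of the Cunningham chains of the first kind in the random sieve model of the primes (Banks, Ford,
Tao): almost surely, for every `ε > 0` and all large `x`, the exact lengths which occur for chains starting
below `x` are all of `1, ..., (1 - ε) log x / log log x`, and none is larger than
`(1 + ε) log x / log log x`.
-/

namespace Pool.Agent.Results.MP_77cbc6_nt.LongestChain

open MeasureTheory ProbabilityTheory Filter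

/-- `∏_{q ≤ y} (1 - 1/q)`, the product over the primes `q ≤ y`. -/
noncomputable def theta (y : ℕ) : ℝ :=
  ∏ q ∈ (Finset.range (y + 1)).filter Nat.Prime, (1 - 1 / (q : ℝ))

/-- The set which is left by the sieve with the residue classes `a p`: the odd `n` such that
`n % p ≠ a p` for every odd prime `p` with `theta p ≥ 1 / log n` (written `1 ≤ log n * theta p`). -/
def Sieved (a : ℕ → ℕ) : Set ℕ :=
  {n | n % 2 = 1 ∧ ∀ p : ℕ, p.Prime → p ≠ 2 → 1 ≤ Real.log n * theta p → n % p ≠ a p}

/-- For every prime `p` the random variable `a p` is uniformly distributed on `{0, ..., p - 1}`, and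
these random variables are independent. -/
structure UniformClasses {Ω : Type*} [MeasurableSpace Ω] (μ : Measure Ω) (a : ℕ → Ω → ℕ) :
    Prop where
  meas : ∀ p, p.Prime → Measurable (a p)
  indep : iIndepFun (fun p : Nat.Primes => a p) μ
  unif : ∀ p, p.Prime → ∀ j < p, μ.real {ω | a p ω = j} = 1 / (p : ℝ)

/-- `n` starts a first-kind Cunningham chain of exact length `k` in the set `R`: the numbers
`2^i (n+1) - 1` lie in `R` for `i < k`, and `2^k (n+1) - 1` does not. -/
def StartsExact (R : Set ℕ) (n k : ℕ) : Prop :=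
  (∀ i < k, 2 ^ i * (n + 1) - 1 ∈ R) ∧ 2 ^ k * (n + 1) - 1 ∉ R

/-- Such random variables exist (this is not part of `result`, it only shows that `result` is not
vacuous). -/
theorem exists_classes : ∃ (Ω : Type) (_ : MeasurableSpace Ω) (μ : Measure Ω) (a : ℕ → Ω → ℕ),
    IsProbabilityMeasure μ ∧ UniformClasses μ a := by
  obtain ⟨Ω, m, μ, a, h1, h2⟩ := Pool.Agent.RSC.exists_unif
  exact ⟨Ω, m, μ, a, h1, h2.meas, h2.indep, h2.unif⟩

theorem result {Ω : Type*} [MeasurableSpace Ω] (μ : Measure Ω) [IsProbabilityMeasure μ]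
    (a : ℕ → Ω → ℕ) (ha : UniformClasses μ a) :
    ∀ᵐ ω ∂μ, ∀ ε : ℝ, 0 < ε → ε < 1 → ∀ᶠ x : ℕ in atTop,
      (∀ k : ℕ, 1 ≤ k → (k : ℝ) ≤ (1 - ε) * (Real.log x / Real.log (Real.log x)) →
        ∃ n, 1 ≤ n ∧ n ≤ x ∧ StartsExact (Sieved fun p => a p ω) n k) ∧
      (∀ n ≤ x, ∀ k : ℕ, StartsExact (Sieved fun p => a p ω) n k →
        (k : ℝ) ≤ (1 + ε) * (Real.log x / Real.log (Real.log x))) := by
  have h := Pool.Agent.RSL.main (μ := μ) (a := a) ⟨ha.meas, ha.indep, ha.unif⟩
  filter_upwards [h] with ω hω ε h0 h1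
  filter_upwards [hω ε h0 h1] with x hx
  refine ⟨fun k hk hk2 => ?_, fun n hn k hk => hx.2 n hn k hk.1⟩
  obtain ⟨n, hn1, hn2, hn3, hn4⟩ := hx.1 k hk hk2
  exact ⟨n, hn1, hn2, hn3, hn4⟩

end Pool.Agent.Results.MP_77cbc6_nt.LongestChain
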