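import Pool.Agent.RAF.Main

/-!
# All the lengths of the chains of primes under maps `T q = 2q + 1 + O(q^t)`, `t > 1/2`, congruent to `2q + 1` modulo `M`

`T q = 2q + 1 + M ⌊(2^((t-1)m) u q + 2^(tm) v + g q)/M⌋` for `2^m ≤ q < 2^(m+1)`, where `(u, v)` are two random numbers for each `m`. Almost surely, for
every `ε > 0` and all large `X`: uniformly for all `k ≤ (1-ε) log X/log log X` the number of primes `p ≤ X` which start a chain of exact length
`k` is asymptotic to `cM M k · X/∏_{i<k} log(2^i X)`, where `cM M k` is the product of the local factors of the Cunningham chains of length `k` at the primes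
dividing `M`; and for `k > (1+ε) log X/log log X` there is no `p ≤ X` for which the first `k` members of the chain are primes.
-/

namespace Pool.Agent.Results.MP_77cbc6_nt.LongestPerturbedChains

open MeasureTheory Filter

/-- The map; `(u, v) = ω m` are the parameters for `2^m ≤ q < 2^(m+1)` (`m = Nat.log 2 q`). -/
noncomputable def T (M : ℕ) (t : ℝ) (g : ℕ → ℝ) (ω : ℕ → ℝ × ℝ) (q : ℕ) : ℕ :=
  2 * q + 1 + M * ⌊((2 : ℝ) ^ ((t - 1) * (Nat.log 2 q : ℝ)) * (ω (Nat.log 2 q)).1 * q +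
    (2 : ℝ) ^ (t * (Nat.log 2 q : ℝ)) * (ω (Nat.log 2 q)).2 + g q) / M⌋₊

/-- `p` starts a chain of exact length `k` under the map `T`: the first `k` terms of the sequence
`p, T p, T (T p), ...` are primes and the next one is composite. -/
def StartsExact (T : ℕ → ℕ) (p k : ℕ) : Prop :=
  (∀ i < k, (T^[i] p).Prime) ∧ 1 < T^[k] p ∧ ¬ (T^[k] p).Prime

open Classical in
/-- The number of the `p ≤ X` which start a chain of exact length `k` under the map `T`. -/
noncomputable def count (T : ℕ → ℕ) (k X : ℕ) : ℕ :=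
  ((Finset.Icc 1 X).filter fun p => StartsExact T p k).card

/-- The proportion of the residues `a` modulo `M` for which all the numbers `2^i (a+1) - 1`, `i < k`, are coprime to `M`, divided by
`(φ(M)/M)^k`. -/
noncomputable def cM (M k : ℕ) : ℝ :=
  (((Finset.range M).filter fun a => ∀ i < k, Nat.Coprime (2 ^ i * (a + 1) - 1) M).card : ℝ) / M /
    ((Nat.totient M : ℝ) / M) ^ k

theorem result (M : ℕ) (t K : ℝ) (g : ℕ → ℝ) (hM : 0 < M) (ht : 1 / 2 < t) (ht1 : t < 1)
    (hg : Monotone g) (hg0 : ∀ q, 0 ≤ g q) (hgK : ∀ q : ℕ, g q ≤ K * ((q : ℝ) ^ t + 1)) :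
    ∀ᵐ ω ∂(Measure.infinitePi fun _ : ℕ =>
      ((volume : Measure ℝ).restrict (Set.Icc 0 1)).prod ((volume : Measure ℝ).restrict (Set.Icc 0 1))),
      ∀ ε : ℝ, 0 < ε → ε < 1 → ∀ᶠ X : ℕ in atTop,
      (∀ k : ℕ, 1 ≤ k → (k : ℝ) ≤ (1 - ε) * (Real.log X / Real.log (Real.log X)) →
        |(count (T M t g ω) k X : ℝ) / (cM M k * X / ∏ i ∈ Finset.range k, Real.log (2 ^ i * X)) - 1| ≤ ε) ∧
      (∀ p k : ℕ, 1 ≤ p → p ≤ X → (∀ i < k, ((T M t g ω)^[i] p).Prime) →
        (k : ℝ) ≤ (1 + ε) * (Real.log X / Real.log (Real.log X))) := by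
  classical
  have hA : RAF.Adm M t (max K 1) g := by
    refine ⟨hM, ht, ht1, le_max_right _ _, hg, hg0, fun q => (hgK q).trans ?_⟩
    exact mul_le_mul_of_nonneg_right (le_max_left _ _) (by positivity)
  have hm : (fun _ : ℕ => ((volume : Measure ℝ).restrict (Set.Icc 0 1)).prod
      ((volume : Measure ℝ).restrict (Set.Icc 0 1))) = fun _ : ℕ => RAF.uu := by
    funext _
    unfold RAF.uu
    rw [Measure.volume_eq_prod, Measure.prod_restrict]
  have hT : ∀ ω, T M t g ω = RAF.T M t g ω := fun ω => rfl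
  have hc : ∀ k, cM M k = RAF.cM M k := by
    intro k
    unfold cM RAF.cM
    rw [div_eq_mul_inv _ (((Nat.totient M : ℝ) / M) ^ k), ← inv_pow, inv_div]
  have key := RAF.main hA
  have hP : (Measure.infinitePi fun _ : ℕ =>
      ((volume : Measure ℝ).restrict (Set.Icc 0 1)).prod ((volume : Measure ℝ).restrict (Set.Icc 0 1))) = RAF.Pm := by
    unfold RAF.Pm
    congr 1
  rw [hP]
  filter_upwards [key] with ω hω ε h0 h1
  filter_upwards [hω ε h0 h1, eventually_ge_atTop 1] with X hX hX1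
  have hSE : ∀ p k : ℕ, 1 ≤ p → 1 ≤ k → (StartsExact (T M t g ω) p k ↔
      (∀ i < k, (RAF.ch M t g ω p i).Prime) ∧ ¬ (RAF.ch M t g ω p k).Prime) := by
    intro p k hp hk
    have h2 : RAF.ch M t g ω p k = (T M t g ω)^[k] p := rfl
    have h3 := RAF.ch_ge M t g ω p k
    unfold StartsExact
    constructor
    · rintro ⟨a, b, c⟩
      exact ⟨a, c⟩
    · rintro ⟨a, c⟩
      refine ⟨a, ?_, c⟩
      rw [← h2]
      have h4 : 2 ≤ 2 ^ k := by
        calc 2 = 2 ^ 1 := by norm_num
          _ ≤ 2 ^ k := Nat.pow_le_pow_right (by norm_num) hk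
      nlinarith
  refine ⟨fun k hk hk2 => ?_, fun p k hp hpX hs => ?_⟩
  · have h2 := hX.1 k hk hk2
    have h3 : (count (T M t g ω) k X : ℝ) = (((Finset.Icc 1 X).filter fun p =>
        (∀ i < k, (RAF.ch M t g ω p i).Prime) ∧ ¬ (RAF.ch M t g ω p k).Prime).card : ℝ) := by
      unfold count
      congr 2
      exact Finset.filter_congr fun p hp => hSE p k (Finset.mem_Icc.1 hp).1 hk
    rw [h3, hc, div_div_eq_mul_div]
    exact h2
  · exact hX.2 p (Finset.mem_Icc.2 ⟨hp, hpX⟩) k hs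

end Pool.Agent.Results.MP_77cbc6_nt.LongestPerturbedChains
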