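import Mathlib
import Pool.Agent.PCy.MainY

/-!
Chains of primes under almost every perturbation of size `q^θ`, `1/2 < θ < 1`, of the Cunningham map `q ↦ 2q + 1`:
for almost every choice of the parameters, for every `k ≥ 1` the number of the primes `p ≤ x` which start a chain of
exact length `k` is asymptotic to `C_k x / (log x)^k`, where `C_k > 0` is the Bateman-Horn constant of the Cunningham
chains of length `k`.
-/

namespace Pool.Agent.Results.MP_77cbc6_nt.PowerPerturbation

open MeasureTheory Filter Topology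

/-- The perturbed Cunningham map with the parameters `a = (a_0, a_1, ...)`: `q` goes to `2q + 1` plus the largest
multiple of `M q` which is `≤ g(q) + q^θ ∑_j a_j / (log q)^j` (and to `0` where this number is negative). -/
noncomputable def T (M : ℕ → ℕ) (θ : ℝ) (g a : ℕ → ℝ) (q : ℕ) : ℕ :=
  (2 * (q : ℤ) + 1 + M q * ⌊(g q + (q : ℝ) ^ θ * ∑' j : ℕ, a j / Real.log q ^ j) / M q⌋).toNat

/-- `p` starts a chain of exact length `k` under the map `T`: the first `k` terms of the sequence
`p, T p, T (T p), ...` are primes and the next one is composite. -/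
def StartsExact (T : ℕ → ℕ) (p k : ℕ) : Prop :=
  (∀ i < k, (T^[i] p).Prime) ∧ 1 < T^[k] p ∧ ¬ (T^[k] p).Prime

open Classical in
/-- The number of the `p ≤ x` which start a chain of exact length `k` under the map `T`. -/
noncomputable def count (T : ℕ → ℕ) (k x : ℕ) : ℕ :=
  ((Finset.range (x + 1)).filter fun p => StartsExact T p k).card

open Classical in
/-- The number of the residues `v` modulo `ℓ` such that `ℓ` divides one of the numbers `2^i (v+1) - 1`, `i < k`. -/
noncomputable def nu (ℓ k : ℕ) : ℕ :=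
  ((Finset.range ℓ).filter fun v => ∃ i < k, ℓ ∣ 2 ^ i * (v + 1) - 1).card

/-- The part of the Bateman-Horn product of the Cunningham chains of length `k` over the primes `≤ j`. -/
noncomputable def bhProd (k j : ℕ) : ℝ :=
  ∏ ℓ ∈ (Finset.range (j + 1)).filter Nat.Prime,
    (1 - (nu ℓ k : ℝ) / ℓ) / (1 - 1 / (ℓ : ℝ)) ^ k

theorem result : ∃ C : ℕ → ℝ, (∀ k : ℕ, 1 ≤ k → 0 < C k ∧ Tendsto (bhProd k) atTop (𝓝 (C k))) ∧
    ∀ θ : ℝ, 1 / 2 < θ → θ < 1 →
    ∃ M : ℕ → ℕ, (∀ q, 0 < M q) ∧ (∀ d : ℕ, 0 < d → ∀ᶠ q : ℕ in atTop, d ∣ M q) ∧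
      (∀ᶠ q : ℕ in atTop, (M q : ℝ) ≤ Real.log q) ∧
      ∀ (g : ℕ → ℝ) (A : ℝ), (∀ q : ℕ, |g q| ≤ A * (q : ℝ) ^ θ) →
      ∀ᵐ a ∂(Measure.infinitePi fun _ : ℕ => (volume : Measure ℝ).restrict (Set.Icc 0 1)),
        ∀ k : ℕ, 1 ≤ k →
          Tendsto (fun x : ℕ => (count (T M θ g a) k x : ℝ) * Real.log x ^ k / x) atTop
            (𝓝 (C k)) := by
  refine ⟨fun k => Pool.Agent.PCx.BH (k - 1), ?_, ?_⟩
  · intro k hk
    refine ⟨Pool.Agent.PCx.BH_pos _, ?_⟩
    refine (Pool.Agent.PCx.BH_tendsto (k - 1)).congr fun j => ?_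
    rw [Pool.Agent.PCx.kap_PP]
    unfold bhProd
    refine Finset.prod_congr rfl fun ℓ hℓ => ?_
    rw [Finset.mem_filter] at hℓ
    rw [Pool.Agent.PCx.bet_zero hℓ.2, Nat.sub_add_cancel hk]
    have e1 : Pool.Agent.PCx.nu ℓ (k - 1) = nu ℓ k := by
      unfold Pool.Agent.PCx.nu nu
      congr 1
      apply Finset.filter_congr
      intro v _
      rw [Nat.sub_add_cancel hk]
      simp only [Finset.mem_range]
    rw [e1]
  · intro θ hθ hθ1
    obtain ⟨M, h1, h2, h3, h4⟩ := Pool.Agent.PCy.mainY hθ hθ1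
    refine ⟨M, h1, h2, h3, ?_⟩
    intro g A hg
    filter_upwards [h4 g A hg] with a ha k hk
    have hpow : ∀ q : ℕ, (q : ℝ) ^ (θ - 1) * q = (q : ℝ) ^ θ := by
      intro q
      rcases Nat.eq_zero_or_pos q with rfl | hq
      · rw [Nat.cast_zero, mul_zero, Real.zero_rpow (by linarith)]
      · have hq' : (0 : ℝ) < q := by exact_mod_cast hq
        rw [Real.rpow_sub_one hq'.ne']
        field_simp
    have e : (fun q => Pool.Agent.PCx.Tr (M q) (Pool.Agent.PCn.SI g (Pool.Agent.PCy.ep θ) a) q) =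
        T M θ g a := by
      funext q
      unfold T
      rw [← hpow q]
      rfl
    have h5 := ha k hk
    rw [e] at h5
    refine h5.congr fun x => ?_
    congr 3
    unfold count
    congr 1
    ext p
    simp only [Finset.mem_filter, StartsExact]

end Pool.Agent.Results.MP_77cbc6_nt.PowerPerturbation
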