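import Mathlib
import Pool.Agent.HwS.Cnt
import Pool.Agent.HwS.Fin
import Pool.Agent.HwS.Exi

open MeasureTheory ProbabilityTheory Filter Topology

namespace Pool.Agent.Retired.MP_77cbc6_nt.RandomSieve

open Pool.Agent.HwS

theorem result :
    (∃ (Ω : Type) (_ : MeasurableSpace Ω) (μ : Measure Ω) (_ : IsProbabilityMeasure μ)
      (S : ℕ → ℕ → Set Ω), IsStrikes μ S) ∧
    ∀ (Ω : Type) [MeasurableSpace Ω] (μ : Measure Ω) [IsProbabilityMeasure μ]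
      (S : ℕ → ℕ → Set Ω), IsStrikes μ S → ∀ z : ℕ, ∀ᵐ ω ∂μ,
      (∀ k : ℕ, 1 ≤ k → 0 < sing z k ∧
        Tendsto (fun x : ℕ =>
          (Set.ncard {n : ℕ | n ≤ x ∧ StartsExact (Sel z (Kof S ω)) n k} : ℝ) *
            Real.log x ^ k / x) atTop (𝓝 (sing z k))) ∧
      (∀ ε : ℝ, 0 < ε → ε < 1 → ∀ᶠ x : ℕ in atTop,
        (∀ k : ℕ, 1 ≤ k → (k : ℝ) ≤ (1 - ε) * (Real.log x / Real.log (Real.log x)) →
          ∃ n ≤ x, StartsExact (Sel z (Kof S ω)) n k) ∧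
        (∀ n ≤ x, ∀ k : ℕ, StartsExact (Sel z (Kof S ω)) n k →
          (k : ℝ) ≤ (1 + ε) * (Real.log x / Real.log (Real.log x)))) := by
  refine ⟨exists_strikes, fun Ω _ μ _ S hS z => ?_⟩
  filter_upwards [count_exact hS z, lengths hS z] with ω h1 h2
  exact ⟨fun k hk => ⟨sing_pos z k, h1 k hk⟩, h2⟩

end Pool.Agent.Retired.MP_77cbc6_nt.RandomSieve
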