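import Mathlib
import Pool.Agent.SMC.FinQ

/-!
Chains of primes of exact length `1`, `2`, `3` under almost every single map `q ↦ ⌊α q + β⌋`. Question Q1 is about the
map `q ↦ 2 q + 1`, that is `α = 2`, `β = 1`. For almost every real `α > 1` and every real `β` infinitely many primes start
a chain of exact length `k` for `k = 1, 2, 3`, and for infinitely many `X` their number up to `X` is at least
`c X / (log X)^3`.
-/

namespace Pool.Agent.Results.MP_77cbc6_nt.SingleMultiplier

open MeasureTheory Filter

/-- The map `q ↦ ⌊α q + β⌋` (and `0` where this number is negative). -/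
noncomputable def T (α β : ℝ) (q : ℕ) : ℕ := ⌊α * q + β⌋₊

/-- `p` starts a chain of exact length `k` under the map `T α β`: the first `k` terms of the sequence
`p, T p, T (T p), ...` are primes and the next one is composite. -/
def StartsExact (α β : ℝ) (p k : ℕ) : Prop :=
  (∀ i < k, ((T α β)^[i] p).Prime) ∧ 1 < (T α β)^[k] p ∧ ¬ ((T α β)^[k] p).Prime

open Classical in
/-- The number of the `p ≤ X` which start a chain of exact length `k` under the map `T α β`. -/
noncomputable def count (α β : ℝ) (k X : ℕ) : ℕ :=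
  ((Finset.Icc 1 X).filter fun p : ℕ => StartsExact α β p k).card

theorem result : ∀ᵐ α : ℝ, 1 < α → ∃ c : ℝ, 0 < c ∧ ∀ β : ℝ, ∀ k : ℕ, 1 ≤ k → k ≤ 3 →
    ∃ᶠ X : ℕ in atTop, c * (X / Real.log X ^ 3) ≤ (count α β k X : ℝ) := by
  filter_upwards [SMC.final2] with α hα h1
  obtain ⟨c, hc, h⟩ := hα h1
  refine ⟨c, hc, fun β k hk hk3 => ?_⟩
  exact h β k hk hk3

end Pool.Agent.Results.MP_77cbc6_nt.SingleMultiplier
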